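import Pool.Agent.Q17.Inv.Quad

/-! The closure of the set of involution proportions is countable. -/

namespace Q17.Inv

open Finset Filter Topology

/-- compact and countable -/
def CC (S : Set ℂ) : Prop := IsCompact S ∧ S.Countable

/-- `0` and the numbers `1 / n` -/
def S0 : Set ℂ := insert 0 (Set.range fun n : ℕ => (1 : ℂ) / ((n : ℂ) + 1))

lemma cc_S0 : CC S0 := by
  constructor
  · refine Tendsto.isCompact_insert_range ?_
    exact tendsto_one_div_add_atTop_nhds_zero_nat (𝕜 := ℂ)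
  · exact (Set.countable_range _).insert 0

lemma mem_S0 {n : ℕ} (hn : 1 ≤ n) : (1 : ℂ) / (n : ℂ) ∈ S0 := by
  right
  refine ⟨n - 1, ?_⟩
  have : ((n - 1 : ℕ) : ℂ) + 1 = (n : ℂ) := by
    rw [Nat.cast_sub hn]; simp
  simp only [this]

lemma roots_finite {k : ℕ} (hk : k ≠ 0) : ({x : ℂ | x ^ k = 1} : Set ℂ).Finite := by
  have : ({x : ℂ | x ^ k = 1} : Set ℂ) = ((Polynomial.nthRoots k (1 : ℂ)).toFinset : Set ℂ) := by
    ext x
    simp [Polynomial.mem_nthRoots (Nat.pos_of_ne_zero hk)]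
  rw [this]
  exact Finset.finite_toSet _

/-- the part of `V k` with parameter `t` -/
def W (k t : ℕ) : Set ℂ := {z | ‖z‖ ^ 2 * t = 1 ∧
  ∃ g : Fin t → ℂ, (∀ i, g i ^ k = 1) ∧ z = (∑ i, g i) / t}

lemma W_finite {k : ℕ} (hk : k ≠ 0) (t : ℕ) : (W k t).Finite := by
  have h1 : (Set.univ.pi (fun _ : Fin t => {x : ℂ | x ^ k = 1})).Finite :=
    Set.Finite.pi fun _ => roots_finite hk
  refine (h1.image (fun g => (∑ i, g i) / (t : ℂ))).subset ?_
  rintro z ⟨-, g, hg, rfl⟩
  exact ⟨g, fun i _ => hg i, rfl⟩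

lemma V_eq (k : ℕ) : V k = insert 0 (⋃ t : ℕ, ⋃ _ : 1 ≤ t, W k t) := by
  ext z
  simp only [V, W, Set.mem_insert_iff, Set.mem_iUnion, Set.mem_ofPred_eq, exists_prop]

lemma cc_V {k : ℕ} (hk : k ≠ 0) : CC (V k) := by
  constructor
  · let f : {z : ℂ // z ∈ V k ∧ z ≠ 0} → ℂ := Subtype.val
    have h1 : V k = insert 0 (Set.range f) := by
      ext z
      simp only [Set.mem_insert_iff, Set.mem_range, f, Subtype.exists, exists_prop,
        exists_eq_right]
      constructor
      · intro hz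
        by_cases h0 : z = 0
        · exact Or.inl h0
        · exact Or.inr ⟨hz, h0⟩
      · rintro (rfl | hz)
        · exact Set.mem_insert _ _
        · exact hz.1
    rw [h1]
    refine Tendsto.isCompact_insert_range_of_cofinite ?_
    rw [Metric.tendsto_nhds]
    intro ε hε
    rw [Filter.eventually_cofinite]
    obtain ⟨T, hT⟩ := exists_nat_gt (1 / ε ^ 2)
    have hfin : (⋃ t ∈ Finset.range (T + 1), W k t).Finite :=
      Set.Finite.biUnion (Finset.finite_toSet _) fun t _ => W_finite hk t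
    refine Set.Finite.subset (hfin.preimage (Subtype.val_injective.injOn)) ?_
    rintro ⟨z, hz, hz0⟩ hzε
    simp only [Set.mem_ofPred_eq, f, dist_zero_right, not_lt] at hzε
    rw [V_eq] at hz
    rcases hz with rfl | hz
    · exact absurd rfl hz0
    · simp only [Set.mem_iUnion] at hz
      obtain ⟨t, ht, hzt⟩ := hz
      simp only [Set.mem_preimage, Set.mem_iUnion, exists_prop]
      refine ⟨t, ?_, hzt⟩
      rw [Finset.mem_range]
      have h2 := hzt.1
      by_contra hcon
      push Not at hcon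
      have h3 : (T : ℝ) < t := by exact_mod_cast (by omega : T < t)
      have h4 : ε ^ 2 ≤ ‖z‖ ^ 2 := by gcongr
      have h5 : 1 < ε ^ 2 * T := by
        have hε2 : 0 < ε ^ 2 := by positivity
        rw [div_lt_iff₀ hε2] at hT
        linarith
      have h6 : ε ^ 2 * T ≤ ‖z‖ ^ 2 * t := by
        have hT0 : (0 : ℝ) ≤ T := by positivity
        nlinarith [sq_nonneg ‖z‖]
      linarith
  · rw [V_eq]
    refine Set.Countable.insert _ ?_
    exact Set.countable_iUnion fun t => Set.countable_iUnion fun _ => (W_finite hk t).countable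

/-- averages -/
def Av (m : ℕ) (S : Set ℂ) : Set ℂ := {z | ∃ v : Fin m → ℂ, (∀ j, v j ∈ S) ∧ z = (∑ j, v j) / m}

lemma cc_Av (m : ℕ) {S : Set ℂ} (hS : CC S) : CC (Av m S) := by
  have h1 : Av m S = (fun v : Fin m → ℂ => (∑ j, v j) / (m : ℂ)) ''
      Set.univ.pi (fun _ => S) := by
    ext z
    constructor
    · rintro ⟨v, hv, rfl⟩
      exact ⟨v, fun j _ => hv j, rfl⟩
    · rintro ⟨v, hv, rfl⟩
      exact ⟨v, fun j => hv j (Set.mem_univ j), rfl⟩
  rw [h1]
  constructor
  · refine (isCompact_univ_pi fun _ => hS.1).image ?_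
    fun_prop
  · exact (Set.countable_univ_pi fun _ => hS.2).image _

/-- products -/
def Mu (S T : Set ℂ) : Set ℂ := {z | ∃ s ∈ S, ∃ w ∈ T, z = s * w}

lemma cc_Mu {S T : Set ℂ} (hS : CC S) (hT : CC T) : CC (Mu S T) := by
  have h1 : Mu S T = (fun x : ℂ × ℂ => x.1 * x.2) '' (S ×ˢ T) := by
    ext z
    constructor
    · rintro ⟨s, hs, w, hw, rfl⟩
      exact ⟨(s, w), ⟨hs, hw⟩, rfl⟩
    · rintro ⟨⟨s, w⟩, ⟨hs, hw⟩, rfl⟩
      exact ⟨s, hs, w, hw, rfl⟩
  rw [h1]
  constructor
  · exact (hS.1.prod hT.1).image (by fun_prop)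
  · exact (hS.2.prod hT.2).image _

/-- differences -/
def Di (S T : Set ℂ) : Set ℂ := {z | ∃ s ∈ S, ∃ w ∈ T, z = s - w}

lemma cc_Di {S T : Set ℂ} (hS : CC S) (hT : CC T) : CC (Di S T) := by
  have h1 : Di S T = (fun x : ℂ × ℂ => x.1 - x.2) '' (S ×ˢ T) := by
    ext z
    constructor
    · rintro ⟨s, hs, w, hw, rfl⟩
      exact ⟨(s, w), ⟨hs, hw⟩, rfl⟩
    · rintro ⟨⟨s, w⟩, ⟨hs, hw⟩, rfl⟩
      exact ⟨s, hs, w, hw, rfl⟩
  rw [h1]
  constructor
  · exact (hS.1.prod hT.1).image (by fun_prop)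
  · exact (hS.2.prod hT.2).image _

lemma cc_union {ι : Type} (s : Finset ι) (S : ι → Set ℂ) (h : ∀ i ∈ s, CC (S i)) :
    CC (⋃ i ∈ s, S i) :=
  ⟨s.isCompact_biUnion fun i hi => (h i hi).1,
    Set.Countable.biUnion s.countable_toSet fun i hi => (h i hi).2⟩

/-- the possible proportions of solutions in one coset, with derived subgroup of order `k` -/
def Q (k : ℕ) : Set ℂ := insert 0 (Mu S0 (Z2 k))

lemma cc_Q {k : ℕ} (hk : k ≠ 0) : CC (Q k) := by
  have h1 : CC (Mu S0 (Z2 k)) := cc_Mu cc_S0 (cc_Av k (cc_V hk))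
  exact ⟨h1.1.insert 0, h1.2.insert 0⟩

/-- elements inverted by an automorphism of a finite group of class at most two -/
lemma aut_zero {N : Type} [Group N] [Finite N]
    (hN : ∀ z ∈ commutator N, ∀ n : N, z * n = n * z) (α : MulAut N) :
    (({n | α n * n = 1} : Set N).ncard : ℂ) / (Nat.card N : ℂ) ∈
      Mu S0 (Z2 (Nat.card (commutator N))) := by
  classical
  have hcomm : ∀ a b : N, a⁻¹ * b⁻¹ * a * b ∈ commutator N := by
    intro a b
    have h1 := Subgroup.commutator_mem_commutator (Subgroup.mem_top (a⁻¹ : N))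
      (Subgroup.mem_top (b⁻¹ : N))
    rw [commutator_def]
    convert h1 using 1
    rw [commutatorElement_def]
    group
  -- the subgroup `M`
  let M : Subgroup N :=
    { carrier := {n | α n * n ∈ commutator N}
      one_mem' := by
        change α 1 * 1 ∈ commutator N
        rw [map_one, one_mul]
        exact Subgroup.one_mem _
      mul_mem' := by
        intro a c ha hc
        change α (a * c) * (a * c) ∈ commutator N
        have ha' : α a * a ∈ commutator N := ha
        have hc' : α c * c ∈ commutator N := hc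
        have e : α (a * c) * (a * c) = (α c * c) * (α a * a) * (a⁻¹ * c⁻¹ * a * c) := by
          have h1 := hN _ hc' ((α a) * c⁻¹ * a * c)
          calc α (a * c) * (a * c) = α a * (α c * c) * c⁻¹ * a * c := by
                rw [map_mul]; group
            _ = (α c * c) * α a * c⁻¹ * a * c := by rw [hN _ hc' (α a)]
            _ = _ := by group
        rw [e]
        exact Subgroup.mul_mem _ (Subgroup.mul_mem _ hc' ha') (hcomm a c)
      inv_mem' := by
        intro a ha
        have ha' : α a * a ∈ commutator N := ha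
        change α a⁻¹ * a⁻¹ ∈ commutator N
        have h2 := hN _ ha' a⁻¹
        have e : α a⁻¹ * a⁻¹ = (α a * a)⁻¹ := by
          rw [map_inv, mul_inv_rev]
          have h3 : (α a)⁻¹ * a⁻¹ = a⁻¹ * (α a)⁻¹ := by
            have h4 : α a * a * a⁻¹ = a⁻¹ * (α a * a) := h2
            have h5 : a * α a = α a * a := by
              calc a * α a = a * (α a * a * a⁻¹) := by group
                _ = a * (a⁻¹ * (α a * a)) := by rw [h4]
                _ = α a * a := by group
            rw [← mul_inv_rev, ← mul_inv_rev, h5]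
          exact h3
        rw [e]
        exact Subgroup.inv_mem _ ha' }
  letI instZ : CommGroup (commutator N) :=
    { (inferInstance : Group (commutator N)) with
      mul_comm := fun a b => Subtype.ext (hN a a.2 b) }
  let ψ : M → commutator N := fun m => ⟨α m * m, m.2⟩
  let β : M → M → commutator N := fun a c =>
    ⟨(a : N)⁻¹ * (c : N)⁻¹ * a * c, hcomm a c⟩
  have hkey : ∀ a c : N, (a⁻¹ * c⁻¹ * a * c) ∈ commutator N := hcomm
  have hz := zeros (M := M) (Z := commutator N) ψ β ?_ ?_ ?_ ?_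
  · refine ⟨1 / (M.index : ℂ), mem_S0 (Nat.pos_of_ne_zero Subgroup.FiniteIndex.index_ne_zero),
      _, hz, ?_⟩
    have h1 : ({n | α n * n = 1} : Set N).ncard = ({m | ψ m = 1} : Set M).ncard := by
      rw [← Set.ncard_image_of_injective ({m | ψ m = 1} : Set M) Subtype.val_injective]
      congr 1
      ext n
      constructor
      · intro hn
        have hn' : α n * n = 1 := hn
        refine ⟨⟨n, ?_⟩, Subtype.ext hn', rfl⟩
        change α n * n ∈ commutator N
        rw [hn']
        exact Subgroup.one_mem _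
      · rintro ⟨m, hm, rfl⟩
        exact congrArg Subtype.val hm
    rw [h1]
    have h4 : ((Nat.card M : ℂ)) * (M.index : ℂ) = (Nat.card N : ℂ) := by
      exact_mod_cast M.card_mul_index
    have h5 : ((Nat.card M : ℂ)) ≠ 0 := by exact_mod_cast Nat.card_pos.ne'
    have h6 : ((M.index : ℂ)) ≠ 0 := by exact_mod_cast Subgroup.FiniteIndex.index_ne_zero
    rw [← h4]
    field_simp
  · intro a c
    apply Subtype.ext
    change α ((a : N) * c) * ((a : N) * c) =
      (α a * a) * (α c * c) * ((a : N)⁻¹ * (c : N)⁻¹ * a * c)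
    have hc' : α (c : N) * (c : N) ∈ commutator N := c.2
    have ha' : α (a : N) * (a : N) ∈ commutator N := a.2
    calc α ((a : N) * c) * ((a : N) * c) = α a * (α c * c) * (c : N)⁻¹ * a * c := by
          rw [map_mul]; group
      _ = (α c * c) * α a * (c : N)⁻¹ * a * c := by rw [hN _ hc' (α a)]
      _ = (α c * c) * (α a * a) * ((a : N)⁻¹ * (c : N)⁻¹ * a * c) := by group
      _ = _ := by rw [hN _ hc' (α a * a)]
  · intro a a' c
    apply Subtype.ext
    change ((a : N) * a')⁻¹ * (c : N)⁻¹ * (a * a') * c =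
      ((a : N)⁻¹ * (c : N)⁻¹ * a * c) * ((a' : N)⁻¹ * (c : N)⁻¹ * a' * c)
    have h1 := hN _ (hkey a c) (a' : N)⁻¹
    calc ((a : N) * a')⁻¹ * (c : N)⁻¹ * (a * a') * c
        = (a' : N)⁻¹ * ((a : N)⁻¹ * (c : N)⁻¹ * a * c) * (c : N)⁻¹ * a' * c := by group
      _ = ((a : N)⁻¹ * (c : N)⁻¹ * a * c) * (a' : N)⁻¹ * (c : N)⁻¹ * a' * c := by rw [h1]
      _ = _ := by group
  · intro a c c'
    apply Subtype.ext
    change (a : N)⁻¹ * ((c : N) * c')⁻¹ * a * ((c : N) * c') =
      ((a : N)⁻¹ * (c : N)⁻¹ * a * c) * ((a : N)⁻¹ * (c' : N)⁻¹ * a * c')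
    have h1 := hN _ (hkey a c) ((a : N)⁻¹ * (c' : N)⁻¹ * a)
    calc (a : N)⁻¹ * ((c : N) * c')⁻¹ * a * ((c : N) * c')
        = ((a : N)⁻¹ * (c' : N)⁻¹ * a) * ((a : N)⁻¹ * (c : N)⁻¹ * a * c) * c' := by group
      _ = ((a : N)⁻¹ * (c : N)⁻¹ * a * c) * ((a : N)⁻¹ * (c' : N)⁻¹ * a) * c' := by rw [h1]
      _ = _ := by group
  · intro a c
    apply Subtype.ext
    change ((a : N)⁻¹ * (c : N)⁻¹ * a * c) * ((c : N)⁻¹ * (a : N)⁻¹ * c * a) = 1
    group

lemma fiber_mem {G : Type} [Group G] [Finite G] (N : Subgroup G) [hNn : N.Normal]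
    (hN : ∀ z ∈ commutator N, ∀ n : N, z * n = n * z) (x : G ⧸ N) :
    (({y | y * y = 1 ∧ (y : G ⧸ N) = x} : Set G).ncard : ℂ) / (Nat.card N : ℂ) ∈
      Q (Nat.card (commutator N)) := by
  classical
  by_cases hne : ({y | y * y = 1 ∧ (y : G ⧸ N) = x} : Set G).Nonempty
  · right
    obtain ⟨y₀, hy₀, hx⟩ := hne
    have h1 := aut_zero hN (MulAut.conjNormal y₀)
    convert h1 using 3
    have h2 : ({y | y * y = 1 ∧ (y : G ⧸ N) = x} : Set G) =
        (fun n : N => y₀ * (n : G)) '' {n : N | (MulAut.conjNormal y₀) n * n = 1} := by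
      ext y
      constructor
      · rintro ⟨hy, hyx⟩
        have hmem : y₀⁻¹ * y ∈ N := by
          rw [← hx] at hyx
          exact QuotientGroup.eq.mp hyx.symm
        refine ⟨⟨y₀⁻¹ * y, hmem⟩, ?_, by simp⟩
        apply Subtype.ext
        change y₀ * (y₀⁻¹ * y) * y₀⁻¹ * (y₀⁻¹ * y) = 1
        have h3 : y₀⁻¹ * y₀⁻¹ = 1 := by
          rw [← mul_inv_rev, hy₀, inv_one]
        calc y₀ * (y₀⁻¹ * y) * y₀⁻¹ * (y₀⁻¹ * y) = y * (y₀⁻¹ * y₀⁻¹) * y := by group
          _ = 1 := by rw [h3, mul_one, hy]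
      · rintro ⟨n, hn, rfl⟩
        have hn' : y₀ * (n : G) * y₀⁻¹ * n = 1 := congrArg Subtype.val hn
        constructor
        · have h3 : y₀⁻¹ = y₀ := inv_eq_of_mul_eq_one_left hy₀
          rw [h3] at hn'
          change (y₀ * (n : G)) * (y₀ * n) = 1
          rw [← mul_assoc]
          exact hn'
        · rw [← hx]
          apply QuotientGroup.eq.mpr
          simp
    rw [h2, Set.ncard_image_of_injective _ (fun a b h => Subtype.ext (mul_left_cancel h))]
  · left
    rw [Set.not_nonempty_iff_eq_empty] at hne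
    rw [hne]
    simp

lemma group_mem {G : Type} [Group G] [Finite G] (N : Subgroup G) [hNn : N.Normal]
    (hN : ∀ z ∈ commutator N, ∀ n : N, z * n = n * z) :
    ((inv2 G).ncard : ℂ) / (Nat.card G : ℂ) ∈ Av N.index (Q (Nat.card (commutator N))) := by
  classical
  have := Fintype.ofFinite G
  have := Fintype.ofFinite (G ⧸ N)
  have e : G ⧸ N ≃ Fin N.index := Finite.equivFinOfCardEq rfl
  refine ⟨fun j => (({y | y * y = 1 ∧ (y : G ⧸ N) = e.symm j} : Set G).ncard : ℂ) /
    (Nat.card N : ℂ), fun j => fiber_mem N hN _, ?_⟩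
  have h1 : ∑ j, (({y | y * y = 1 ∧ (y : G ⧸ N) = e.symm j} : Set G).ncard : ℂ) /
      (Nat.card N : ℂ) = ∑ x : G ⧸ N, (({y | y * y = 1 ∧ (y : G ⧸ N) = x} : Set G).ncard : ℂ) /
      (Nat.card N : ℂ) := Fintype.sum_equiv e.symm _ _ (fun i => rfl)
  rw [h1, ← Finset.sum_div]
  have h2 : ((inv2 G).ncard : ℂ) =
      ∑ x : G ⧸ N, (({y | y * y = 1 ∧ (y : G ⧸ N) = x} : Set G).ncard : ℂ) := by
    have e1 : (inv2 G).ncard = (univ.filter (fun y : G => y * y = 1)).card := by
      rw [Set.ncard_eq_toFinset_card']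
      congr 1
      ext z
      simp [inv2]
    rw [e1, card_eq_sum_card_fiberwise (f := fun y : G => (y : G ⧸ N))
      (t := (univ : Finset (G ⧸ N))) (fun _ _ => mem_univ _)]
    push_cast
    refine sum_congr rfl fun x _ => ?_
    congr 1
    rw [Set.ncard_eq_toFinset_card', filter_filter]
    congr 1
    ext z
    simp
  rw [h2]
  have h4 : ((Nat.card N : ℂ)) * (N.index : ℂ) = (Nat.card G : ℂ) := by
    exact_mod_cast N.card_mul_index
  rw [← h4, div_div]

/-- All proportions of solutions of `x ^ 2 = 1` that are at least `1 / d` lie in one compact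
countable set. -/
theorem exists_cc (d : ℕ) (hd : 1 ≤ d) : ∃ K : Set ℂ, CC K ∧ ∀ (G : Type) [Group G] [Finite G],
    Nat.card G ≤ d * (inv2 G).ncard → ((inv2 G).ncard : ℂ) / (Nat.card G : ℂ) ∈ K := by
  obtain ⟨m₀, k₀, h⟩ := structure_thm d hd
  refine ⟨⋃ m ∈ range (m₀ + 1), ⋃ k ∈ (range (k₀ + 1)).filter (fun k => k ≠ 0), Av m (Q k),
    ?_, ?_⟩
  · refine cc_union _ _ fun m _ => cc_union _ _ fun k hk => cc_Av m (cc_Q ?_)
    exact (mem_filter.mp hk).2
  · intro G _ _ hG
    obtain ⟨N, hNn, hm, hN, hk⟩ := h G hG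
    have h1 := group_mem N hN
    simp only [Set.mem_iUnion]
    exact ⟨N.index, mem_range.mpr (Nat.lt_succ_of_le hm), Nat.card (commutator N),
      mem_filter.mpr ⟨mem_range.mpr (Nat.lt_succ_of_le hk), Nat.card_pos.ne'⟩, h1⟩

/-- the number of involutions -/
lemma involutions_card (G : Type) [Group G] [Finite G] :
    Nat.card {x : G // orderOf x = 2} + 1 = (inv2 G).ncard := by
  classical
  have h1 : inv2 G = insert 1 {x : G | orderOf x = 2} := by
    ext x
    simp only [inv2, Set.mem_ofPred_eq, Set.mem_insert_iff]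
    constructor
    · intro h
      by_cases hx : x = 1
      · exact Or.inl hx
      · right
        exact orderOf_eq_prime (by rw [pow_two]; exact h) hx
    · rintro (rfl | h)
      · simp
      · rw [← pow_two, ← h, pow_orderOf_eq_one]
  rw [h1, Set.ncard_insert_of_notMem (by simp), ← Nat.card_coe_set_eq]
  rfl

/-- the same for the proportion of involutions, as a real number -/
theorem exists_real (d : ℕ) (hd : 1 ≤ d) : ∃ K : Set ℝ, IsCompact K ∧ K.Countable ∧
    ∀ (G : Type) [Group G] [Finite G],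
      (1 : ℝ) / d ≤ (Nat.card {x : G // orderOf x = 2} : ℝ) / (Nat.card G : ℝ) →
      (Nat.card {x : G // orderOf x = 2} : ℝ) / (Nat.card G : ℝ) ∈ K := by
  obtain ⟨K, hK, h⟩ := exists_cc d hd
  have hD := cc_Di hK cc_S0
  refine ⟨Complex.re '' Di K S0, hD.1.image Complex.continuous_re, hD.2.image _, ?_⟩
  intro G _ _ hG
  have h1 := involutions_card G
  have hn : (0 : ℝ) < Nat.card G := by exact_mod_cast Nat.card_pos
  have hdpos : (0 : ℝ) < d := by exact_mod_cast hd
  have h2 : Nat.card G ≤ d * (inv2 G).ncard := by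
    rw [div_le_div_iff₀ hdpos hn, one_mul] at hG
    have h3 : Nat.card G ≤ Nat.card {x : G // orderOf x = 2} * d := by exact_mod_cast hG
    rw [← h1]
    nlinarith
  have h3 := h G h2
  refine ⟨_, ⟨_, h3, _, mem_S0 (n := Nat.card G) Nat.card_pos, rfl⟩, ?_⟩
  have h4 : ((inv2 G).ncard : ℂ) / (Nat.card G : ℂ) - 1 / (Nat.card G : ℂ) =
      (((Nat.card {x : G // orderOf x = 2} : ℝ) / (Nat.card G : ℝ) : ℝ) : ℂ) := by
    rw [← h1]
    push_cast
    ring
  rw [h4, Complex.ofReal_re]

end Q17.Inv
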