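import Mathlib

/-! Finite groups with many solutions of `x ^ 2 = 1`: a normal subgroup of bounded index and class
at most two with bounded derived subgroup. -/

namespace Q17.Inv

open scoped Pointwise
open Finset

variable {G : Type} [Group G]

/-- conjugacy class as a set -/
def cl (x : G) : Set G := Set.range fun h : G => h * x * h⁻¹

lemma mem_cl_self (x : G) : x ∈ cl x := ⟨1, by simp⟩

/-- orbit-stabilizer for conjugation -/
lemma index_centralizer (x : G) : (Subgroup.centralizer {x}).index = (cl x).ncard := by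
  rw [Subgroup.index, ← Nat.card_coe_set_eq]
  apply Nat.card_congr
  refine Equiv.ofBijective (Quotient.lift (fun h : G => (⟨h * x * h⁻¹, h, rfl⟩ : cl x)) ?_) ⟨?_, ?_⟩
  · intro a b hab
    apply Subtype.ext
    have h1 : a⁻¹ * b ∈ Subgroup.centralizer {x} := QuotientGroup.leftRel_apply.mp hab
    rw [Subgroup.mem_centralizer_singleton_iff] at h1
    change a * x * a⁻¹ = b * x * b⁻¹
    calc a * x * a⁻¹ = a * (x * (a⁻¹ * b)) * b⁻¹ := by group
      _ = a * ((a⁻¹ * b) * x) * b⁻¹ := by rw [h1]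
      _ = b * x * b⁻¹ := by group
  · intro a b
    induction a using Quotient.inductionOn with | h a => ?_
    induction b using Quotient.inductionOn with | h b => ?_
    intro h
    have h1 : a * x * a⁻¹ = b * x * b⁻¹ := congrArg Subtype.val h
    apply Quotient.sound
    apply QuotientGroup.leftRel_apply.mpr
    rw [Subgroup.mem_centralizer_singleton_iff]
    calc a⁻¹ * b * x = a⁻¹ * (b * x * b⁻¹) * b := by group
      _ = a⁻¹ * (a * x * a⁻¹) * b := by rw [h1]
      _ = x * (a⁻¹ * b) := by group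
  · rintro ⟨y, h, rfl⟩
    exact ⟨Quotient.mk'' h, rfl⟩

lemma card_centralizer_mul (x : G) :
    Nat.card (Subgroup.centralizer {x}) * (cl x).ncard = Nat.card G := by
  rw [← index_centralizer, Subgroup.card_mul_index]

lemma cl_mul_subset (x y : G) : cl (x * y) ⊆ cl x * cl y := by
  rintro _ ⟨h, rfl⟩
  exact ⟨h * x * h⁻¹, ⟨h, rfl⟩, h * y * h⁻¹, ⟨h, rfl⟩, by group⟩

lemma ncard_cl_mul [Finite G] (x y : G) : (cl (x * y)).ncard ≤ (cl x).ncard * (cl y).ncard :=
  (Set.ncard_le_ncard (cl_mul_subset x y) (Set.toFinite _)).trans (by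
    rw [← Nat.card_coe_set_eq, ← Nat.card_coe_set_eq, ← Nat.card_coe_set_eq]
    exact Set.natCard_mul_le)

lemma ncard_cl_pos [Finite G] (x : G) : 0 < (cl x).ncard :=
  (Set.ncard_pos (Set.toFinite _)).mpr ⟨x, mem_cl_self x⟩

/-- Growth: a large symmetric set generates in boundedly many steps. -/
lemma growth [Finite G] (X : Set G) (h1 : (1 : G) ∈ X) (hinv : ∀ x ∈ X, x⁻¹ ∈ X) (c : ℕ)
    (hc : Nat.card G ≤ c * X.ncard) :
    ∀ y ∈ Subgroup.closure X, y ∈ X ^ (3 * c + 1) := by
  classical
  have hmono : ∀ {m n : ℕ}, m ≤ n → X ^ m ⊆ X ^ n := fun {m n} h =>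
    Set.pow_right_monotone h1 h
  -- some step is stationary
  have hstat : ∃ k ≤ c, X ^ (3 * k + 2) = X ^ (3 * k + 1) := by
    by_contra hcon
    push Not at hcon
    have hex : ∀ k : Fin (c + 1), ∃ x, x ∈ X ^ (3 * (k : ℕ) + 2) ∧ x ∉ X ^ (3 * (k : ℕ) + 1) := by
      intro k
      have h2 := hcon k (Nat.lt_succ_iff.mp k.2)
      by_contra h3
      push Not at h3
      exact h2 (Set.Subset.antisymm h3 (hmono (by omega)))
    choose x hx1 hx2 using hex
    have hin : ∀ (k : Fin (c + 1)) (z : X), x k * z ∈ X ^ (3 * (k : ℕ) + 3) := by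
      intro k z
      rw [show 3 * (k : ℕ) + 3 = (3 * (k : ℕ) + 2) + 1 from rfl, pow_succ]
      exact Set.mul_mem_mul (hx1 k) z.2
    have hout : ∀ (k : Fin (c + 1)) (z : X), x k * z ∉ X ^ (3 * (k : ℕ)) := by
      intro k z h
      apply hx2 k
      rw [pow_succ]
      refine ⟨x k * z, h, (z : G)⁻¹, hinv _ z.2, by simp⟩
    have hinj : Function.Injective (fun q : Fin (c + 1) × X => x q.1 * (q.2 : G)) := by
      rintro ⟨k, z⟩ ⟨l, w⟩ h
      have h' : x k * (z : G) = x l * (w : G) := h
      rcases lt_trichotomy k l with hkl | hkl | hkl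
      · exfalso
        apply hout l w
        rw [← h']
        exact hmono (by have : (k : ℕ) < l := hkl; omega) (hin k z)
      · subst hkl
        rw [Subtype.ext (mul_left_cancel h')]
      · exfalso
        apply hout k z
        rw [h']
        exact hmono (by have : (l : ℕ) < k := hkl; omega) (hin l w)
    have h3 := Nat.card_le_card_of_injective _ hinj
    rw [Nat.card_prod, Nat.card_fin, Nat.card_coe_set_eq] at h3
    have h4 : 0 < X.ncard := (Set.ncard_pos (Set.toFinite _)).mpr ⟨1, h1⟩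
    nlinarith
  obtain ⟨k, hk, hstat⟩ := hstat
  set m := 3 * k + 1 with hm
  have hstep : X ^ (m + 1) = X ^ m := hstat
  have hall : ∀ j, X ^ (m + j) = X ^ m := by
    intro j
    induction j with
    | zero => rfl
    | succ j ih => rw [← add_assoc, pow_succ, ih, ← pow_succ, hstep]
  have hinvm : ∀ n : ℕ, ∀ y ∈ X ^ n, y⁻¹ ∈ X ^ n := by
    intro n
    induction n with
    | zero =>
      intro y hy
      rw [pow_zero, Set.mem_one] at hy ⊢
      rw [hy, inv_one]
    | succ n ih =>
      intro y hy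
      rw [pow_succ] at hy
      obtain ⟨a, ha, b, hb, rfl⟩ := hy
      rw [pow_succ', mul_inv_rev]
      exact Set.mul_mem_mul (hinv b hb) (ih a ha)
  intro y hy
  have hmem : y ∈ X ^ m := by
    refine Subgroup.closure_induction (p := fun y _ => y ∈ X ^ m) ?_ ?_ ?_ ?_ hy
    · intro x hx
      exact hmono (by omega : 1 ≤ m) (by rwa [pow_one])
    · exact hmono (Nat.zero_le m) (by simp)
    · intro a b _ _ ha hb
      rw [← hall m, pow_add]
      exact Set.mul_mem_mul ha hb
    · intro a _ ha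
      exact hinvm m a ha
  exact hmono (by omega) hmem

lemma ncard_cl_pow [Finite G] (X : Set G) (c : ℕ) (hX : ∀ x ∈ X, (cl x).ncard ≤ c) (n : ℕ) :
    ∀ y ∈ X ^ n, (cl y).ncard ≤ c ^ n := by
  induction n with
  | zero =>
    intro y hy
    rw [pow_zero, Set.mem_one] at hy
    subst hy
    have : cl (1 : G) = {1} := by
      ext z
      simp [cl]
    rw [this, Set.ncard_singleton, pow_zero]
  | succ n ih =>
    intro y hy
    rw [pow_succ] at hy
    obtain ⟨a, ha, b, hb, rfl⟩ := hy
    rw [pow_succ]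
    exact (ncard_cl_mul a b).trans (Nat.mul_le_mul (ih a ha) (hX b hb))

/-- Bounded class sizes give a subgroup of bounded index with few commutators. -/
lemma bfc [Finite G] (B : ℕ) (hB : ∀ x : G, (cl x).ncard ≤ B) :
    ∃ C : Subgroup G, C.index ≤ B ^ B ∧
      ∃ E : Set G, E.ncard ≤ B * B ∧ ∀ u ∈ C, ∀ y : G, u⁻¹ * (y * u * y⁻¹) ∈ E := by
  classical
  obtain ⟨a, ha⟩ := Finite.exists_max (fun x : G => (cl x).ncard)
  have hBpos : 1 ≤ B := le_trans (ncard_cl_pos (1 : G)) (hB 1)
  -- representatives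
  choose h hh using fun z : cl a => z.2
  have hh' : ∀ z : cl a, h z * a * (h z)⁻¹ = z := hh
  let C : Subgroup G := ⨅ z : cl a, Subgroup.centralizer {h z}
  have hfin : Finite (cl a) := Set.toFinite _
  have := Fintype.ofFinite (cl a)
  refine ⟨C, ?_, cl a * (fun x => x⁻¹) '' cl a, ?_, ?_⟩
  · refine (Subgroup.index_iInf_le _).trans ?_
    calc ∏ z : cl a, (Subgroup.centralizer {h z}).index ≤ ∏ _z : cl a, B :=
          prod_le_prod' fun z _ => by rw [index_centralizer]; exact hB _
      _ = B ^ (cl a).ncard := by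
          rw [prod_const, Finset.card_univ, ← Nat.card_eq_fintype_card, Nat.card_coe_set_eq]
      _ ≤ B ^ B := Nat.pow_le_pow_right hBpos (hB a)
  · have h1 : (cl a * (fun x => x⁻¹) '' cl a).ncard ≤
        (cl a).ncard * ((fun x => x⁻¹) '' cl a).ncard := by
      rw [← Nat.card_coe_set_eq, ← Nat.card_coe_set_eq, ← Nat.card_coe_set_eq]
      exact Set.natCard_mul_le
    refine h1.trans (Nat.mul_le_mul (hB a) ((Set.ncard_image_le (Set.toFinite _)).trans (hB a)))
  · intro u hu y
    have hcomm : ∀ z : cl a, h z * u * (h z)⁻¹ = u := by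
      intro z
      have h1 : u ∈ Subgroup.centralizer {h z} := (Subgroup.mem_iInf.mp hu) z
      rw [Subgroup.mem_centralizer_singleton_iff] at h1
      rw [← h1]
      group
    -- conjugates of `u * a`
    have hsub : (fun w => u * w) '' cl a ⊆ cl (u * a) := by
      rintro _ ⟨w, hw, rfl⟩
      refine ⟨h ⟨w, hw⟩, ?_⟩
      have h1 := hh' ⟨w, hw⟩
      have h2 := hcomm ⟨w, hw⟩
      calc h ⟨w, hw⟩ * (u * a) * (h ⟨w, hw⟩)⁻¹
          = (h ⟨w, hw⟩ * u * (h ⟨w, hw⟩)⁻¹) * (h ⟨w, hw⟩ * a * (h ⟨w, hw⟩)⁻¹) := by group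
        _ = u * w := by rw [h2, h1]
    have heq : (fun w => u * w) '' cl a = cl (u * a) := by
      apply Set.eq_of_subset_of_ncard_le hsub _ (Set.toFinite _)
      rw [Set.ncard_image_of_injective _ (mul_right_injective u)]
      exact ha _
    have h3 : y * (u * a) * y⁻¹ ∈ (fun w => u * w) '' cl a := by
      rw [heq]; exact ⟨y, rfl⟩
    obtain ⟨w, hw, hwy⟩ := h3
    refine ⟨w, hw, (y * a * y⁻¹)⁻¹, ⟨y * a * y⁻¹, ⟨y, rfl⟩, rfl⟩, ?_⟩
    have h4 : u * w = y * (u * a) * y⁻¹ := hwy
    calc w * (y * a * y⁻¹)⁻¹ = u⁻¹ * (u * w) * (y * a * y⁻¹)⁻¹ := by group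
      _ = u⁻¹ * (y * (u * a) * y⁻¹) * (y * a * y⁻¹)⁻¹ := by rw [h4]
      _ = u⁻¹ * (y * u * y⁻¹) := by group

/-- solutions of `x ^ 2 = 1` -/
def inv2 (G : Type) [Group G] : Set G := {x | x * x = 1}

lemma count_pairs [Finite G] :
    (inv2 G).ncard * (inv2 G).ncard ≤ ∑ᶠ z : G, Nat.card (Subgroup.centralizer {z}) := by
  classical
  have := Fintype.ofFinite G
  rw [finsum_eq_sum_of_fintype]
  -- pairs (z, x) with x inverting z
  let S : (z : G) → Set G := fun z => {x | x * z * x⁻¹ = z⁻¹}
  have hS : ∀ z, (S z).ncard ≤ Nat.card (Subgroup.centralizer {z}) := by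
    intro z
    by_cases hne : (S z).Nonempty
    · obtain ⟨x₀, hx₀⟩ := hne
      rw [← Nat.card_coe_set_eq]
      refine Nat.card_le_card_of_injective
        (fun x : S z => (⟨x₀⁻¹ * x, ?_⟩ : Subgroup.centralizer {z})) ?_
      · rw [Subgroup.mem_centralizer_singleton_iff]
        have h1 : (x : G) * z * (x : G)⁻¹ = z⁻¹ := x.2
        have h2 : x₀ * z * x₀⁻¹ = z⁻¹ := hx₀
        calc x₀⁻¹ * (x : G) * z = x₀⁻¹ * ((x : G) * z * (x : G)⁻¹) * x := by group
          _ = x₀⁻¹ * (x₀ * z * x₀⁻¹) * x := by rw [h1, h2]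
          _ = z * (x₀⁻¹ * x) := by group
      · intro x y hxy
        have := congrArg Subtype.val hxy
        exact Subtype.ext (mul_left_cancel this)
    · rw [Set.not_nonempty_iff_eq_empty] at hne
      rw [hne]
      simp
  calc (inv2 G).ncard * (inv2 G).ncard = Nat.card (inv2 G × inv2 G) := by
        rw [Nat.card_prod, Nat.card_coe_set_eq]
    _ ≤ Nat.card (Σ z : G, S z) := by
        refine Nat.card_le_card_of_injective
          (fun q : inv2 G × inv2 G => (⟨(q.1 : G) * q.2, ⟨q.1, ?_⟩⟩ : Σ z : G, S z)) ?_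
        · have h1 : (q.1 : G) * q.1 = 1 := q.1.2
          have h2 : (q.2 : G) * q.2 = 1 := q.2.2
          have e1 : (q.1 : G)⁻¹ = q.1 := inv_eq_of_mul_eq_one_left h1
          have e2 : (q.2 : G)⁻¹ = q.2 := inv_eq_of_mul_eq_one_left h2
          change (q.1 : G) * (q.1 * q.2) * (q.1 : G)⁻¹ = (q.1 * q.2 : G)⁻¹
          rw [mul_inv_rev, e1, e2, ← mul_assoc, h1, one_mul]
        · rintro ⟨x, y⟩ ⟨x', y'⟩ h
          have h1 : (x : G) * y = x' * y' := congrArg Sigma.fst h
          have h2 : (x : G) = x' := by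
            have := congrArg (fun s : Σ z : G, S z => (s.2 : G)) h
            exact this
          have h3 : x = x' := Subtype.ext h2
          subst h3
          rw [Subtype.ext (mul_left_cancel h1)]
    _ = ∑ z : G, (S z).ncard := by
        rw [Nat.card_sigma]
        simp only [Nat.card_coe_set_eq]
    _ ≤ ∑ z : G, Nat.card (Subgroup.centralizer {z}) := sum_le_sum fun z _ => hS z

/-- the elements with at most `c` conjugates -/
def small (G : Type) [Group G] (c : ℕ) : Set G := {x | (cl x).ncard ≤ c}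

lemma small_large [Finite G] (d : ℕ) (hd : 1 ≤ d) (h : Nat.card G ≤ d * (inv2 G).ncard) :
    Nat.card G ≤ (2 * d ^ 2) * (small G (2 * d ^ 2)).ncard := by
  classical
  have := Fintype.ofFinite G
  set c := 2 * d ^ 2 with hc
  set n := Nat.card G with hn
  have hnpos : 0 < n := Nat.card_pos
  have hcpos : 0 < c := by positivity
  have h1 := count_pairs (G := G)
  rw [finsum_eq_sum_of_fintype] at h1
  -- bound each term
  have hterm : ∀ z : G, c * Nat.card (Subgroup.centralizer {z}) ≤
      (if z ∈ small G c then c * n else 0) + n := by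
    intro z
    have hz := card_centralizer_mul z
    by_cases hzs : z ∈ small G c
    · rw [if_pos hzs]
      have : Nat.card (Subgroup.centralizer {z}) ≤ n := by
        rw [← hn] at hz
        have := ncard_cl_pos z
        nlinarith
      nlinarith
    · rw [if_neg hzs, zero_add]
      have h2 : c < (cl z).ncard := not_le.mp hzs
      rw [← hn] at hz
      nlinarith
  have hsum : c * ∑ z : G, Nat.card (Subgroup.centralizer {z}) ≤
      (small G c).ncard * (c * n) + n * n := by
    rw [mul_sum]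
    refine (sum_le_sum fun z _ => hterm z).trans ?_
    rw [sum_add_distrib, sum_const, Finset.card_univ, ← Nat.card_eq_fintype_card, ← hn,
      smul_eq_mul, ← sum_filter, sum_const, smul_eq_mul]
    have : (univ.filter (fun z => z ∈ small G c)).card = (small G c).ncard := by
      rw [Set.ncard_eq_toFinset_card']
      congr 1
      ext z
      simp
    rw [this]
  have h3 : n * n ≤ d ^ 2 * ((inv2 G).ncard * (inv2 G).ncard) := by
    have := Nat.mul_le_mul h h
    calc n * n ≤ (d * (inv2 G).ncard) * (d * (inv2 G).ncard) := this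
      _ = _ := by ring
  have h4 : c * (n * n) ≤ d ^ 2 * ((small G c).ncard * (c * n) + n * n) := by
    calc c * (n * n) ≤ c * (d ^ 2 * ((inv2 G).ncard * (inv2 G).ncard)) := Nat.mul_le_mul_left _ h3
      _ = d ^ 2 * (c * ((inv2 G).ncard * (inv2 G).ncard)) := by ring
      _ ≤ d ^ 2 * (c * ∑ z : G, Nat.card (Subgroup.centralizer {z})) := by gcongr
      _ ≤ _ := Nat.mul_le_mul_left _ hsum
  -- c = 2 d^2
  have hd2 : 0 < d ^ 2 := by positivity
  have h5 : 2 * (n * n) ≤ (small G c).ncard * (c * n) + n * n := by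
    have : d ^ 2 * (2 * (n * n)) ≤ d ^ 2 * ((small G c).ncard * (c * n) + n * n) := by
      calc d ^ 2 * (2 * (n * n)) = c * (n * n) := by rw [hc]; ring
        _ ≤ _ := h4
    exact Nat.le_of_mul_le_mul_left this hd2
  have h6 : n * n ≤ ((c * (small G c).ncard)) * n := by nlinarith
  exact Nat.le_of_mul_le_mul_right h6 hnpos

end Q17.Inv
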