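import Pool.Agent.Q17.Inv.Structure

/-! Zeros of quadratic maps on finite groups. -/

namespace Q17.Inv

open Finset ComplexConjugate

/-- the possible normalised Gauss sums with values `k`-th roots of unity -/
def V (k : ℕ) : Set ℂ := insert 0 {z | ∃ t : ℕ, 1 ≤ t ∧ ‖z‖ ^ 2 * t = 1 ∧
  ∃ g : Fin t → ℂ, (∀ i, g i ^ k = 1) ∧ z = (∑ i, g i) / t}

/-- Normalised Gauss sums of quadratic functions. -/
lemma gauss {M : Type} [Group M] [Finite M] [Fintype M] (k : ℕ) (hk : k ≠ 0) (q : M → ℂ)
    (b : M → M → ℂ) (hq : ∀ a, q a ^ k = 1) (hqb : ∀ a c, q (a * c) = q a * q c * b a c)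
    (hb1 : ∀ a a' c, b (a * a') c = b a c * b a' c)
    (hb2 : ∀ a c c', b a (c * c') = b a c * b a c') (hsym : ∀ a c, b a c * b c a = 1) :
    (∑ a, q a) / (Nat.card M : ℂ) ∈ V k := by
  classical
  have hbne : ∀ a c, b a c ≠ 0 := fun a c h => by
    have := hsym a c
    rw [h, zero_mul] at this
    exact zero_ne_one this
  have hb1' : ∀ c, b 1 c = 1 := by
    intro c
    have h1 := hb1 1 1 c
    rw [mul_one] at h1
    exact (mul_left_cancel₀ (hbne 1 c) (by rw [mul_one]; exact h1)).symm
  let R : Subgroup M :=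
    { carrier := {a | ∀ c, b a c = 1}
      one_mem' := hb1'
      mul_mem' := by
        intro x y hx hy c
        rw [hb1, hx c, hy c, mul_one]
      inv_mem' := by
        intro x hx c
        have h1 := hb1 x⁻¹ x c
        rw [inv_mul_cancel, hb1' c, hx c, mul_one] at h1
        exact h1.symm }
  have hmemR : ∀ a, a ∈ R ↔ ∀ c, b a c = 1 := fun a => Iff.rfl
  have hnorm : ∀ a, q a * conj (q a) = 1 := by
    intro a
    have h1 : ‖q a‖ = 1 := Complex.norm_eq_one_of_pow_eq_one (hq a) hk
    rw [Complex.mul_conj, Complex.normSq_eq_norm_sq, h1]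
    simp
  set n : ℂ := (Nat.card M : ℂ) with hn
  have hn0 : n ≠ 0 := by rw [hn]; exact_mod_cast Nat.card_pos.ne'
  set S := ∑ a, q a with hS
  -- the character sums
  have hsumb : ∀ a, ∑ c, b a c = if a ∈ R then n else 0 := by
    intro a
    by_cases ha : a ∈ R
    · rw [if_pos ha]
      rw [sum_congr rfl fun c _ => (hmemR a).mp ha c]
      simp [hn]
    · rw [if_neg ha]
      have : ∃ c₀, b a c₀ ≠ 1 := by
        by_contra h
        push Not at h
        exact ha h
      obtain ⟨c₀, hc₀⟩ := this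
      have h1 : ∑ c, b a c = ∑ c, b a (c₀ * c) :=
        (Fintype.sum_equiv (Equiv.mulLeft c₀) _ _ (fun c => rfl)).symm
      have h2 : ∑ c, b a (c₀ * c) = b a c₀ * ∑ c, b a c := by
        rw [mul_sum]
        exact sum_congr rfl fun c _ => hb2 a c₀ c
      rw [h2] at h1
      have h3 : (1 - b a c₀) * ∑ c, b a c = 0 := by linear_combination h1
      exact (mul_eq_zero.mp h3).resolve_left (sub_ne_zero.mpr (Ne.symm hc₀))
  have hSS : S * conj S = n * ∑ a, if a ∈ R then q a else 0 := by
    have h1 : S * conj S = ∑ c, ∑ a, q a * conj (q c) := by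
      rw [hS, map_sum, Finset.mul_sum]
      exact sum_congr rfl fun c _ => by rw [Finset.sum_mul]
    have h2 : ∀ c, ∑ a, q a * conj (q c) = ∑ a, q a * b a c := by
      intro c
      have e1 : ∑ a, q a * conj (q c) = ∑ a, q (a * c) * conj (q c) :=
        (Fintype.sum_equiv (Equiv.mulRight c) _ _ (fun a => rfl)).symm
      rw [e1]
      refine sum_congr rfl fun a _ => ?_
      rw [hqb]
      linear_combination (q a * b a c) * hnorm c
    rw [h1, sum_congr rfl fun c _ => h2 c, sum_comm, mul_sum]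
    refine sum_congr rfl fun a _ => ?_
    rw [← mul_sum, hsumb a]
    split_ifs <;> ring
  by_cases hqR : ∀ r ∈ R, q r = 1
  · right
    refine ⟨R.index, Nat.pos_of_ne_zero Subgroup.FiniteIndex.index_ne_zero, ?_, ?_⟩
    · have h1 : ∑ a, (if a ∈ R then q a else 0) = (Nat.card R : ℂ) := by
        rw [← sum_filter]
        have : ∀ a ∈ univ.filter (fun a => a ∈ R), q a = 1 := fun a ha =>
          hqR a (mem_filter.mp ha).2
        rw [sum_congr rfl this, sum_const, nsmul_eq_mul, mul_one]
        congr 1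
        rw [Nat.card_eq_fintype_card, Fintype.card_subtype]
      rw [h1] at hSS
      have h2 : S * conj S = ((‖S‖ ^ 2 : ℝ) : ℂ) := by
        rw [Complex.mul_conj, Complex.normSq_eq_norm_sq]
      rw [h2] at hSS
      have h3 : ‖S‖ ^ 2 = (Nat.card M : ℝ) * (Nat.card R : ℝ) := by
        rw [hn] at hSS
        exact_mod_cast hSS
      have h4 : ((Nat.card R : ℝ)) * (R.index : ℝ) = (Nat.card M : ℝ) := by
        exact_mod_cast R.card_mul_index
      have h5 : ((Nat.card M : ℝ)) ≠ 0 := by exact_mod_cast Nat.card_pos.ne'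
      rw [norm_div, div_pow, h3]
      have h6 : ‖(Nat.card M : ℂ)‖ = (Nat.card M : ℝ) := by
        rw [Complex.norm_natCast]
      rw [hn, h6, ← h4]
      have h7 : ((Nat.card R : ℝ)) ≠ 0 := by exact_mod_cast Nat.card_pos.ne'
      have h8 : ((R.index : ℝ)) ≠ 0 := by
        exact_mod_cast Subgroup.FiniteIndex.index_ne_zero
      field_simp
    · have hfq : Finite (M ⧸ R) := inferInstance
      have := Fintype.ofFinite (M ⧸ R)
      have e : M ⧸ R ≃ Fin R.index := Finite.equivFinOfCardEq rfl
      refine ⟨fun i => q (e.symm i).out, fun i => hq _, ?_⟩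
      have h1 : S = ∑ x : (M ⧸ R) × R, q (x.1.out) := by
        rw [hS]
        refine Fintype.sum_equiv Subgroup.groupEquivQuotientProdSubgroup _ _ ?_
        intro a
        -- `a = out * r`
        have h2 : (((Subgroup.groupEquivQuotientProdSubgroup (s := R)) a).1.out)⁻¹ * a ∈ R := by
          have h3 : ((Subgroup.groupEquivQuotientProdSubgroup (s := R)) a).1 = (a : M ⧸ R) := rfl
          rw [h3]
          exact QuotientGroup.eq.mp (Quotient.out_eq' _)
        set o := ((Subgroup.groupEquivQuotientProdSubgroup (s := R)) a).1.out with ho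
        have h4 : q a = q o := by
          have h5 : a = o * (o⁻¹ * a) := by group
          rw [h5, hqb, hqR _ h2, mul_one]
          have h6 := hsym o (o⁻¹ * a)
          rw [(hmemR _).mp h2 o, mul_one] at h6
          rw [h6, mul_one]
        exact h4
      rw [h1, Fintype.sum_prod_type]
      simp only [sum_const, Finset.card_univ, nsmul_eq_mul]
      rw [← Nat.card_eq_fintype_card, ← mul_sum]
      have h7 : ∑ i, q (e.symm i).out = ∑ x : M ⧸ R, q x.out :=
        Fintype.sum_equiv e.symm _ _ (fun i => rfl)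
      rw [h7]
      have h4 : ((Nat.card R : ℂ)) * (R.index : ℂ) = n := by
        rw [hn]; exact_mod_cast R.card_mul_index
      have h5 : ((Nat.card R : ℂ)) ≠ 0 := by exact_mod_cast Nat.card_pos.ne'
      have h6 : ((R.index : ℂ)) ≠ 0 := by exact_mod_cast Subgroup.FiniteIndex.index_ne_zero
      rw [← h4]
      field_simp
  · left
    push Not at hqR
    obtain ⟨r₀, hr₀, hqr₀⟩ := hqR
    have h1 : ∑ a, (if a ∈ R then q a else 0) = q r₀ * ∑ a, (if a ∈ R then q a else 0) := by
      have e1 : ∑ a, (if a ∈ R then q a else 0) = ∑ a, (if r₀ * a ∈ R then q (r₀ * a) else 0) :=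
        (Fintype.sum_equiv (Equiv.mulLeft r₀) _ _ (fun c => rfl)).symm
      rw [mul_sum]
      conv_lhs => rw [e1]
      refine sum_congr rfl fun a _ => ?_
      by_cases ha : a ∈ R
      · rw [if_pos ha, if_pos (R.mul_mem hr₀ ha), hqb, (hmemR r₀).mp hr₀ a, mul_one]
      · have : r₀ * a ∉ R := fun h => ha ((R.mul_mem_cancel_left hr₀).mp h)
        rw [if_neg ha, if_neg this, mul_zero]
    have h2 : (1 - q r₀) * ∑ a, (if a ∈ R then q a else 0) = 0 := by linear_combination h1
    have h3 := (mul_eq_zero.mp h2).resolve_left (sub_ne_zero.mpr (Ne.symm hqr₀))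
    rw [h3, mul_zero, Complex.mul_conj] at hSS
    have h4 : S = 0 := by
      have : Complex.normSq S = 0 := by exact_mod_cast hSS
      exact Complex.normSq_eq_zero.mp this
    rw [h4, zero_div]

/-- averages of `k` elements of `V k` -/
def Z2 (k : ℕ) : Set ℂ := {z | ∃ v : Fin k → ℂ, (∀ j, v j ∈ V k) ∧ z = (∑ j, v j) / k}

/-- The proportion of zeros of a quadratic map. -/
lemma zeros {M Z : Type} [Group M] [Finite M] [CommGroup Z] [Finite Z] (ψ : M → Z)
    (β : M → M → Z) (hψ : ∀ a c, ψ (a * c) = ψ a * ψ c * β a c)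
    (hb1 : ∀ a a' c, β (a * a') c = β a c * β a' c)
    (hb2 : ∀ a c c', β a (c * c') = β a c * β a c') (hsym : ∀ a c, β a c * β c a = 1) :
    (({a | ψ a = 1} : Set M).ncard : ℂ) / (Nat.card M : ℂ) ∈ Z2 (Nat.card Z) := by
  classical
  have := Fintype.ofFinite M
  have hfA : Finite (Additive Z) := inferInstanceAs (Finite Z)
  have := Fintype.ofFinite (Additive Z)
  set k := Nat.card Z with hk
  have hk0 : k ≠ 0 := Nat.card_pos.ne'
  have hkA : Fintype.card (Additive Z) = k := by
    rw [← Nat.card_eq_fintype_card]; rfl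
  have hkC : Nat.card (AddChar (Additive Z) ℂ) = k := by
    rw [Nat.card_eq_fintype_card, AddChar.card_eq, hkA]
  have e : AddChar (Additive Z) ℂ ≃ Fin k := Finite.equivFinOfCardEq hkC
  refine ⟨fun j => (∑ a, (e.symm j) (Additive.ofMul (ψ a))) / (Nat.card M : ℂ), ?_, ?_⟩
  · intro j
    set χ := e.symm j with hχ
    refine gauss k hk0 (fun a => χ (Additive.ofMul (ψ a)))
      (fun a c => χ (Additive.ofMul (β a c))) ?_ ?_ ?_ ?_ ?_
    · intro a
      rw [← AddChar.map_nsmul_eq_pow, ← hkA, card_nsmul_eq_zero, AddChar.map_zero_eq_one]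
    · intro a c
      rw [hψ, ofMul_mul, ofMul_mul, AddChar.map_add_eq_mul, AddChar.map_add_eq_mul]
    · intro a a' c
      rw [hb1, ofMul_mul, AddChar.map_add_eq_mul]
    · intro a c c'
      rw [hb2, ofMul_mul, AddChar.map_add_eq_mul]
    · intro a c
      rw [← AddChar.map_add_eq_mul, ← ofMul_mul, hsym, ofMul_one, AddChar.map_zero_eq_one]
  · have h1 : ∑ j, (∑ a, (e.symm j) (Additive.ofMul (ψ a))) / (Nat.card M : ℂ) =
        ∑ χ : AddChar (Additive Z) ℂ, (∑ a, χ (Additive.ofMul (ψ a))) / (Nat.card M : ℂ) :=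
      Fintype.sum_equiv e.symm _ _ (fun i => rfl)
    rw [h1, ← Finset.sum_div, sum_comm]
    have h2 : ∀ a, ∑ χ : AddChar (Additive Z) ℂ, χ (Additive.ofMul (ψ a)) =
        if ψ a = 1 then (k : ℂ) else 0 := by
      intro a
      rw [AddChar.sum_apply_eq_ite, hkA]
      rfl
    rw [sum_congr rfl fun a _ => h2 a, ← sum_filter, sum_const, nsmul_eq_mul]
    have h3 : (univ.filter (fun a => ψ a = 1)).card = ({a | ψ a = 1} : Set M).ncard := by
      rw [Set.ncard_eq_toFinset_card']
      congr 1
      ext z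
      simp
    rw [h3]
    have hkc : (k : ℂ) ≠ 0 := by exact_mod_cast hk0
    have hM : (Nat.card M : ℂ) ≠ 0 := by exact_mod_cast Nat.card_pos.ne'
    field_simp

end Q17.Inv
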