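import Pool.Agent.Q17.Inv.Neumann

/-! The structure theorem. -/

namespace Q17.Inv

open Finset

variable {G : Type} [Group G]

/-- a bound for the derived subgroup -/
def K0 (B : ℕ) : ℕ := (range (B * B + 1)).sup Subgroup.cardCommutatorBound

/-- the structure theorem -/
theorem structure_thm (d : ℕ) (hd : 1 ≤ d) : ∃ m₀ k₀ : ℕ, ∀ (G : Type) [Group G] [Finite G],
    Nat.card G ≤ d * (inv2 G).ncard → ∃ N : Subgroup G, N.Normal ∧ N.index ≤ m₀ ∧
      (∀ z ∈ commutator N, ∀ n : N, z * n = n * z) ∧ Nat.card (commutator N) ≤ k₀ := by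
  classical
  set c := 2 * d ^ 2 with hc
  set B := c ^ (3 * c + 1) with hB
  have hcpos : 1 ≤ c := by have : 0 < d ^ 2 := by positivity
                           omega
  have hBpos : 1 ≤ B := Nat.one_le_pow _ _ hcpos
  refine ⟨(B ^ B * c).factorial * B ^ K0 B, K0 B, ?_⟩
  intro G _ _ hG
  set X := small G c with hX
  have hXcard : Nat.card G ≤ c * X.ncard := small_large d hd hG
  have h1X : (1 : G) ∈ X := by
    change (cl (1 : G)).ncard ≤ c
    have : cl (1 : G) = {1} := by
      ext z
      simp [cl]
    rw [this, Set.ncard_singleton]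
    exact hcpos
  have hinvX : ∀ x ∈ X, x⁻¹ ∈ X := by
    intro x hx
    have : cl x⁻¹ = (fun y => y⁻¹) '' cl x := by
      ext z
      constructor
      · rintro ⟨h, rfl⟩
        exact ⟨h * x * h⁻¹, ⟨h, rfl⟩, by group⟩
      · rintro ⟨_, ⟨h, rfl⟩, rfl⟩
        exact ⟨h, by group⟩
    change (cl x⁻¹).ncard ≤ c
    rw [this]
    exact (Set.ncard_image_le (Set.toFinite _)).trans hx
  set H : Subgroup G := Subgroup.closure X with hH
  have hHcl : ∀ h ∈ H, (cl h).ncard ≤ B := fun h hh =>
    ncard_cl_pow X c (fun x hx => hx) (3 * c + 1) h (growth X h1X hinvX c hXcard h hh)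
  have hHindex : H.index ≤ c := by
    have h1 : X.ncard ≤ Nat.card H := by
      rw [← Nat.card_coe_set_eq]
      exact Nat.card_le_card_of_injective (fun x : X => (⟨x, Subgroup.subset_closure x.2⟩ : H))
        (fun x y h => Subtype.ext (congrArg (fun z : H => (z : G)) h))
    have h2 := H.card_mul_index
    have h3 : Nat.card H * H.index ≤ Nat.card H * c := by
      rw [h2]
      calc Nat.card G ≤ c * X.ncard := hXcard
        _ ≤ c * Nat.card H := Nat.mul_le_mul_left _ h1
        _ = _ := mul_comm _ _
    exact Nat.le_of_mul_le_mul_left h3 Nat.card_pos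
  have hHcl' : ∀ h : H, (cl h).ncard ≤ B := by
    intro h
    refine le_trans ?_ (hHcl h h.2)
    rw [← Set.ncard_image_of_injective (cl h) Subtype.val_injective]
    apply Set.ncard_le_ncard _ (Set.toFinite _)
    rintro _ ⟨_, ⟨y, rfl⟩, rfl⟩
    exact ⟨y, rfl⟩
  obtain ⟨C, hCindex, E, hE, hCE⟩ := bfc B hHcl'
  set C' : Subgroup G := C.map H.subtype with hC'
  have hC'index : C'.index ≤ B ^ B * c := by
    have h1 : C'.index = C.index * H.index := by
      rw [hC', Subgroup.index_map_subtype]
    rw [h1]
    exact Nat.mul_le_mul hCindex hHindex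
  set N₀ := C'.normalCore with hN₀
  have hN₀C : N₀ ≤ C' := C'.normalCore_le
  have hN₀H : N₀ ≤ H := hN₀C.trans (Subgroup.map_subtype_le C)
  have hN₀index : N₀.index ≤ (B ^ B * c).factorial := by
    have h1 : N₀.index ∣ C'.index.factorial := by
      rw [hN₀, Subgroup.normalCore_eq_ker, Subgroup.index_ker, Subgroup.index_eq_card,
        ← Nat.card_perm]
      exact Subgroup.card_subgroup_dvd_card _
    exact (Nat.le_of_dvd (Nat.factorial_pos _) h1).trans (Nat.factorial_le hC'index)
  -- commutators of `N₀`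
  have hset : Nat.card (commutatorSet N₀) ≤ B * B := by
    refine le_trans ?_ hE
    rw [← Nat.card_coe_set_eq]
    have hmem : ∀ z : commutatorSet N₀, ∃ e : E, ((e : H) : G) = ((z : N₀) : G) := by
      rintro ⟨z, g₁, g₂, rfl⟩
      have h1 : ((g₁⁻¹ : N₀) : G) ∈ C' := hN₀C (g₁⁻¹).2
      obtain ⟨u, hu, hug⟩ := h1
      have h2 := hCE u hu ⟨(g₂ : G), hN₀H g₂.2⟩
      refine ⟨⟨_, h2⟩, ?_⟩
      have hug' : ((u : H) : G) = ((g₁ : G))⁻¹ := hug
      change ((u : H) : G)⁻¹ * ((g₂ : G) * (u : G) * (g₂ : G)⁻¹) = _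
      rw [hug']
      change _ = (g₁ : G) * g₂ * (g₁ : G)⁻¹ * (g₂ : G)⁻¹
      group
    choose e he using hmem
    refine Nat.card_le_card_of_injective e ?_
    intro z w hzw
    apply Subtype.ext
    apply Subtype.ext
    rw [← he z, ← he w, hzw]
  have hK : Nat.card (commutator N₀) ≤ K0 B := by
    refine (Subgroup.card_commutator_le_of_finite_commutatorSet N₀).trans ?_
    exact Finset.le_sup (f := Subgroup.cardCommutatorBound)
      (mem_range.mpr (Nat.lt_succ_of_le hset))
  set K : Subgroup G := ⁅N₀, N₀⁆ with hKdef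
  have hKmap : (commutator N₀).map N₀.subtype = K := Subgroup.map_subtype_commutator N₀
  have hKcard : Nat.card K ≤ K0 B := by
    rw [← hKmap]
    exact (Nat.card_congr ((commutator N₀).equivMapOfInjective N₀.subtype
      N₀.subtype_injective).toEquiv.symm).le.trans hK
  have hN₀n : N₀.Normal := Subgroup.normalCore_normal C'
  have hKn : K.Normal := Subgroup.commutator_normal N₀ N₀
  have hKN₀ : K ≤ N₀ := Subgroup.commutator_le_left N₀ N₀
  set N : Subgroup G := N₀ ⊓ Subgroup.centralizer (K : Set G) with hN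
  have hNn : N.Normal := by
    have : (Subgroup.centralizer (K : Set G)).Normal := inferInstance
    exact Subgroup.normal_inf_normal _ _
  have hcent : (Subgroup.centralizer (K : Set G)).index ≤ B ^ K0 B := by
    have hfin : Finite K := inferInstance
    have := Fintype.ofFinite K
    have h1 : (⨅ k : K, Subgroup.centralizer {(k : G)}) ≤ Subgroup.centralizer (K : Set G) := by
      intro x hx
      rw [Subgroup.mem_centralizer_iff]
      intro k hk
      have := (Subgroup.mem_iInf.mp hx) ⟨k, hk⟩
      rw [Subgroup.mem_centralizer_singleton_iff] at this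
      exact this.symm
    have h2 : (Subgroup.centralizer (K : Set G)).index ≤
        (⨅ k : K, Subgroup.centralizer {(k : G)}).index :=
      Nat.le_of_dvd (Nat.pos_of_ne_zero Subgroup.FiniteIndex.index_ne_zero)
        (Subgroup.index_dvd_of_le h1)
    refine h2.trans ((Subgroup.index_iInf_le _).trans ?_)
    calc ∏ k : K, (Subgroup.centralizer {(k : G)}).index ≤ ∏ _k : K, B :=
          prod_le_prod' fun k _ => by
            rw [index_centralizer]
            exact hHcl _ (hN₀H (hKN₀ k.2))
      _ = B ^ Nat.card K := by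
          rw [prod_const, Finset.card_univ, ← Nat.card_eq_fintype_card]
      _ ≤ B ^ K0 B := Nat.pow_le_pow_right hBpos hKcard
  refine ⟨N, hNn, ?_, ?_, ?_⟩
  · exact (Subgroup.index_inf_le).trans (Nat.mul_le_mul hN₀index hcent)
  · intro z hz n
    have hzK : (z : G) ∈ K := by
      have h1 : (z : G) ∈ (commutator N).map N.subtype := ⟨z, hz, rfl⟩
      rw [Subgroup.map_subtype_commutator] at h1
      exact Subgroup.commutator_mono inf_le_left inf_le_left h1
    have hn : (n : G) ∈ Subgroup.centralizer (K : Set G) := n.2.2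
    rw [Subgroup.mem_centralizer_iff] at hn
    exact Subtype.ext (hn _ hzK)
  · have h1 : Nat.card (commutator N) = Nat.card (⁅N, N⁆ : Subgroup G) := by
      rw [← Subgroup.map_subtype_commutator]
      exact Nat.card_congr ((commutator N).equivMapOfInjective N.subtype
        N.subtype_injective).toEquiv
    rw [h1]
    refine le_trans ?_ hKcard
    exact Subgroup.card_le_of_le (Subgroup.commutator_mono inf_le_left inf_le_left)

end Q17.Inv
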